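import Mathlib
import Pool.Agent.W484.AA.Rel
import Pool.Agent.Q219.ST.Defs

/-!
# Numbers of small rank or small width: definitions
-/

set_option autoImplicit false

namespace Pool.Agent.Q219.NW

open Polynomial Pool.Agent.W484.AA Pool.Agent.Q219.ST

/-- The algebraic integer `ρ` and its conjugates (the roots of `χ`) have the absolute value
`Q ^ (w / 2)`, `Q = q ^ s`, and the sum of the `|2 λ - w|`, `λ` the slopes of `χ`, is smaller than
`2 P`. -/
def NarrowNumber (q s : ℕ) (P : ℝ) (ρ : ℂ) : Prop :=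
  ∃ (w : ℕ) (χ : ℤ[X]), χ.Monic ∧ aeval ρ χ = 0 ∧
    (∀ z : ℂ, aeval z χ = 0 → ‖z‖ ^ 2 = ((q : ℝ) ^ s) ^ w) ∧
    ∀ (p : ℕ) [Fact p.Prime], p ∣ q → newtonWidth p ((q : ℝ) ^ s) w χ < 2 * P

/-- The number `ρ` has small rank or small width. -/
def Allowed (E : IntermediateField ℚ ℂ) (r q s : ℕ) (P : ℝ) (ρ : ℂ) : Prop :=
  HasSmallRank E r ρ ∨ NarrowNumber q s P ρ

/-- The sum of the deviations `1 - 2 s j` of the slopes. -/
noncomputable def devSum {g : ℕ} (s : Fin g → ℚ) : ℝ := ∑ j, (1 - 2 * (s j : ℝ))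

end Pool.Agent.Q219.NW
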