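import Mathlib
import Pool.Agent.W484.AA.Direct

/-!
# Multiplicative relations between the roots of Weil polynomials with flips and integral numbers

(The arguments of `Pool.Agent.W484.AA.Direct`, with the `p`-rank replaced by the sum of the
deviations of the slopes.)
-/

set_option autoImplicit false
set_option linter.unusedSectionVars false

namespace Pool.Agent.Q219.NW

open Polynomial Pool.Agent.H925R2 Pool.Agent.H485R3 Pool.Agent.W484.BB Pool.Agent.W521.Frob
  Pool.Agent.W521.Criterion Pool.Agent.W484.AA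

/-- The sum of the absolute values of the deviations of the slopes of `f` is at least `2 * R`. -/
def HasDev (p : ℕ) [Fact p.Prime] (a : ℕ) (R : ℝ) (f : ℤ[X]) : Prop :=
  2 * R * Real.log ((p : ℝ) ^ a) ≤ ((f.map (algebraMap ℤ (PadicAlgCl p))).roots.map
    (fun y => |dev p ((p : ℚ) ^ a) y|)).sum

section

variable {I : Type*} {q : ℕ} {h : I → ℤ[X]} (hq : q ≠ 0) (hm : ∀ i, (h i).Monic)
  {L : Type} [Field L] [NumberField L] [IsGalois ℚ L] (j : L →+* ℂ)
  (hL : ∀ i, ∀ z : ℂ, aeval z (weil q (h i)) = 0 → ∃ x : L, j x = z)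
  (p : ℕ) [Fact p.Prime] (a : ℕ) (hqp : q = p ^ a) (e : L →ₐ[ℚ] PadicAlgCl p)

include hq hm hL hqp in
/-- **The mean of the absolute values of the deviations.** -/
theorem mean_ge (i : I) (hirr : Irreducible ((h i).map (Int.castRingHom ℚ))) (g : ℕ)
    (r : ℝ) (hdeg : (weil q (h i)).natDegree = 2 * g) (hr : HasDev p a r (weil q (h i)))
    (x : L) (hx : aeval x (weil q (h i)) = 0) :
    (Fintype.card (L ≃ₐ[ℚ] L) : ℝ) * (2 * r * Real.log ((p : ℝ) ^ a)) ≤
      2 * g * ∑ σ : L ≃ₐ[ℚ] L, |dv p a e (σ x)| := by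
  classical
  have hmw : (weil q (h i)).Monic := weil_monic q (hm i)
  have hsplit : ((weil q (h i)).map (algebraMap ℤ L)).Splits := by
    refine Splits.of_splits_map j (IsAlgClosed.splits _) ?_
    intro z hz
    have h1 := (mem_roots'.1 hz).2
    have e1 : ((weil q (h i)).map (algebraMap ℤ L)).map j = (weil q (h i)).map (algebraMap ℤ ℂ) := by
      rw [Polynomial.map_map]
      congr 1
      exact RingHom.ext_int _ _
    rw [e1, IsRoot.def, eval_map] at h1
    exact hL i z h1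
  set M := ((weil q (h i)).map (algebraMap ℤ L)).roots with hMdef
  have hM : (weil q (h i)).map (algebraMap ℤ L) = (M.map (fun a => X - C a)).prod := by
    rw [hMdef]
    have := hsplit.eq_prod_roots
    rw [(hmw.map (algebraMap ℤ L)).leadingCoeff, C_1, one_mul] at this
    exact this
  have hMcard : M.card = 2 * g := by
    rw [hMdef, ← hsplit.natDegree_eq_card_roots, hmw.natDegree_map, hdeg]
  have hMroot : ∀ y ∈ M, aeval y (weil q (h i)) = 0 := by
    intro y hy
    have h1 := (mem_roots'.1 hy).2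
    rw [IsRoot.def, eval_map] at h1
    exact h1
  -- the sums over the group do not depend on the root
  have hconst : ∀ y ∈ M, ∑ σ : L ≃ₐ[ℚ] L, |dv p a e (σ y)| = ∑ σ : L ≃ₐ[ℚ] L, |dv p a e (σ x)| := by
    intro y hy
    have hy0 : y ≠ 0 := root_ne_zero hq (hm i) (hMroot y hy)
    obtain ⟨τ, hτ⟩ := exists_tau hq hm L j hL i hirr x y hx (hMroot y hy)
    have h1 : ∀ σ : L ≃ₐ[ℚ] L, |dv p a e (σ y)| = |dv p a e ((σ * τ) x)| := by
      intro σ
      rw [AlgEquiv.mul_apply]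
      rcases hτ with h' | h'
      · rw [h']
      · rw [h', map_div₀, map_natCast, dv_inv p a hqp e (σ y) (by
          rw [Ne, map_eq_zero]; exact hy0), abs_neg]
    rw [Finset.sum_congr rfl fun σ _ => h1 σ]
    exact Fintype.sum_equiv (Equiv.mulRight τ) _ _ fun σ => rfl
  have h1 : (M.map (fun y => ∑ σ : L ≃ₐ[ℚ] L, |dv p a e (σ y)|)).sum =
      2 * g * ∑ σ : L ≃ₐ[ℚ] L, |dv p a e (σ x)| := by
    rw [Multiset.map_congr rfl hconst, Multiset.map_const', Multiset.sum_replicate, hMcard,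
      nsmul_eq_mul]
    push_cast
    ring
  rw [← h1, sum_map_exchange]
  have h2 : ∀ σ : L ≃ₐ[ℚ] L, 2 * (r : ℝ) * Real.log ((p : ℝ) ^ a) ≤
      (M.map (fun y => |dv p a e (σ y)|)).sum := by
    intro σ
    have h4 := congrArg (fun f => f.map ((e : L →+* PadicAlgCl p).comp (σ : L →+* L))) hM
    simp only [Polynomial.map_map, Polynomial.map_multiset_prod, Multiset.map_map] at h4
    have h5 : (weil q (h i)).map (algebraMap ℤ (PadicAlgCl p)) =
        ((M.map (fun y => e (σ y))).map (fun a => X - C a)).prod := by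
      rw [RingHom.ext_int (algebraMap ℤ (PadicAlgCl p))
        (((e : L →+* PadicAlgCl p).comp (σ : L →+* L)).comp (algebraMap ℤ L)), h4,
        Multiset.map_map]
      congr 1
      refine Multiset.map_congr rfl fun y _ => ?_
      simp
    have h3 := hr
    unfold HasDev at h3
    rw [h5, roots_multiset_prod_X_sub_C, Multiset.map_map] at h3
    exact h3
  calc (Fintype.card (L ≃ₐ[ℚ] L) : ℝ) * (2 * r * Real.log ((p : ℝ) ^ a)) =
      ∑ _σ : L ≃ₐ[ℚ] L, 2 * (r : ℝ) * Real.log ((p : ℝ) ^ a) := by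
        rw [Finset.sum_const, Finset.card_univ, nsmul_eq_mul]
    _ ≤ _ := Finset.sum_le_sum fun σ _ => h2 σ

include hq hm hL hqp in
/-- **The basic inequality.** A list of roots without pairs `x`, `q / x`. -/
theorem free_sum (hirr : ∀ i, Irreducible ((h i).map (Int.castRingHom ℚ)))
    (hfl : ∀ i, ∀ α : L, aeval α (weil q (h i)) = 0 → Flippable q h α) (g : I → ℕ) (r : I → ℝ)
    (hg : ∀ i, 0 < g i)
    (hdeg : ∀ i, (weil q (h i)).natDegree = 2 * g i) (hr : ∀ i, HasDev p a (r i) (weil q (h i)))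
    {n : ℕ} (x : Fin n → L) (i : Fin n → I) (hx : ∀ k, aeval (x k) (weil q (h (i k))) = 0)
    (hno : ∀ k l, x l ≠ q / x k) (B : ℝ)
    (hB : ∀ σ : L ≃ₐ[ℚ] L, ∑ k, dv p a e (σ (x k)) ≤ B) :
    ∑ k, (r (i k) : ℝ) / g (i k) * Real.log ((p : ℝ) ^ a) ≤ B := by
  classical
  have hqL : (q : L) ≠ 0 := by exact_mod_cast hq
  have hx0 : ∀ k, x k ≠ 0 := fun k => root_ne_zero hq (hm (i k)) (hx k)
  have h1 : ∀ σ : L ≃ₐ[ℚ] L, ∑ k, |dv p a e (σ (x k))| ≤ B := by
    intro σ
    refine abs_sum_le (X := L) (G := L ≃ₐ[ℚ] L) (fun y => (q : L) / y) (dv p a e) x ?_ ?_ ?_ hno ?_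
      B hB σ
    · intro k
      exact div_div_cancel₀ hqL
    · intro τ y
      change τ ((q : L) / y) = (q : L) / τ y
      rw [map_div₀, map_natCast]
    · intro τ k
      change dv p a e (τ ((q : L) / x k)) = - dv p a e (τ (x k))
      rw [map_div₀, map_natCast]
      exact dv_inv p a hqp e _ (by rw [Ne, map_eq_zero]; exact hx0 k)
    · intro k
      obtain ⟨ψ, h1, -, h3⟩ := hfl (i k) (x k) (hx k)
      exact ⟨ψ, h1, fun l hl => h3 (i l) (x l) (hx l) hl (hno k l)⟩
  have hG : (0 : ℝ) < Fintype.card (L ≃ₐ[ℚ] L) := by exact_mod_cast Fintype.card_pos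
  have h2 : ∀ k, (Fintype.card (L ≃ₐ[ℚ] L) : ℝ) *
      ((r (i k) : ℝ) / g (i k) * Real.log ((p : ℝ) ^ a)) ≤
        ∑ σ : L ≃ₐ[ℚ] L, |dv p a e (σ (x k))| := by
    intro k
    have h3 := mean_ge hq hm j hL p a hqp e (i k) (hirr (i k)) (g (i k)) (r (i k)) (hdeg _) (hr _)
      (x k) (hx k)
    have hg0 : (0 : ℝ) < g (i k) := by exact_mod_cast hg (i k)
    have h4 : (2 * g (i k) : ℝ) * ((Fintype.card (L ≃ₐ[ℚ] L) : ℝ) *
        ((r (i k) : ℝ) / g (i k) * Real.log ((p : ℝ) ^ a))) =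
        (Fintype.card (L ≃ₐ[ℚ] L) : ℝ) * (2 * r (i k) * Real.log ((p : ℝ) ^ a)) := by
      field_simp
    rw [← h4] at h3
    exact le_of_mul_le_mul_left h3 (by positivity)
  have h5 : (Fintype.card (L ≃ₐ[ℚ] L) : ℝ) *
      ∑ k, ((r (i k) : ℝ) / g (i k) * Real.log ((p : ℝ) ^ a)) ≤
        (Fintype.card (L ≃ₐ[ℚ] L) : ℝ) * B := by
    rw [Finset.mul_sum]
    refine (Finset.sum_le_sum fun k _ => h2 k).trans ?_
    rw [Finset.sum_comm]
    refine (Finset.sum_le_sum fun σ _ => h1 σ).trans ?_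
    rw [Finset.sum_const, Finset.card_univ, nsmul_eq_mul]
  exact le_of_mul_le_mul_left h5 hG

end

/-- **Relations between roots and a Weil number of weight one**: there are two roots with product
`q`. -/
theorem odd_relation {I : Type} [Finite I] {q : ℕ} {h : I → ℤ[X]} (p : ℕ) [Fact p.Prime] (a : ℕ)
    (ha : 0 < a) (hqp : q = p ^ a)
    (hm : ∀ i, (h i).Monic) (hirr : ∀ i, Irreducible ((h i).map (Int.castRingHom ℚ)))
    (hpat : ∀ i, ∃ l : ℕ, l.Prime ∧ l ≠ 2 ∧ ¬ l ∣ q ∧ FlipPattern q h i l)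
    (g : I → ℕ) (r : I → ℝ) (hg : ∀ i, 0 < g i)
    (hdeg : ∀ i, (weil q (h i)).natDegree = 2 * g i) (hr : ∀ i, HasDev p a (r i) (weil q (h i)))
    (hrg : ∀ i, (g i : ℝ) < 3 * r i)
    (s : ℕ) (hs : 0 < s) (ρ : ℂ) (hρ : IsIntegral ℤ ρ) (hρn : ‖ρ‖ ^ 2 = (q : ℝ) ^ s)
    (m N : ℕ) (hN : 0 < N) (z : Fin (2 * m + 3) → ℂ)
    (hz : ∀ k, ∃ i, aeval (z k) (weil q (h i)) = 0)
    (hrel : ((∏ k, z k) ^ s * ρ) ^ N = (((q : ℂ) ^ s) ^ (m + 2)) ^ N)
    (hno : ∀ k l, k ≠ l → z k * z l ≠ q) : False := by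
  classical
  have hp0 : 0 < p := (Fact.out : p.Prime).pos
  have hq : q ≠ 0 := by rw [hqp]; exact pow_ne_zero _ hp0.ne'
  obtain ⟨L, _, _, _, j, hL⟩ := exists_field q h hm
  have hfl : ∀ i, ∀ α : L, aeval α (weil q (h i)) = 0 → Flippable q h α := by
    intro i α hα
    obtain ⟨l, hl, hl2, hlq, hp⟩ := hpat i
    exact all_flippable hq hm L j hL i (hirr i) hl hl2 hlq hp α hα
  have hdown : ∀ (i : I) (x : L), aeval (j x) (weil q (h i)) = 0 → aeval x (weil q (h i)) = 0 := by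
    intro i x hx
    apply j.injective
    have h2 := Polynomial.hom_eval₂ (weil q (h i)) (algebraMap ℤ L) j x
    rw [RingHom.ext_int (j.comp (algebraMap ℤ L)) (algebraMap ℤ ℂ)] at h2
    rw [map_zero]
    exact h2.trans hx
  choose i hi using hz
  choose x hx using fun k => hL (i k) (z k) (hi k)
  have hxr : ∀ k, aeval (x k) (weil q (h (i k))) = 0 := fun k => hdown _ _ (by rw [hx]; exact hi k)
  have hx0 : ∀ k, x k ≠ 0 := fun k => root_ne_zero hq (hm (i k)) (hxr k)
  have hqL : (q : L) ≠ 0 := by exact_mod_cast hq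
  have hqC : (q : ℂ) ≠ 0 := by exact_mod_cast hq
  have hqR : (0 : ℝ) < q := by exact_mod_cast Nat.pos_of_ne_zero hq
  let e : L →ₐ[ℚ] PadicAlgCl p := IsAlgClosed.lift
  have hnoL : ∀ k l, x l ≠ q / x k := by
    intro k l hkl
    by_cases hk : k = l
    · subst hk
      obtain ⟨-, h2⟩ := ne_conj hq hm hirr hpat (z k) ⟨i k, hi k⟩
      apply h2
      have h3 := congrArg j hkl
      rw [map_div₀, map_natCast, hx] at h3
      exact h3.symm
    · apply hno k l hk
      have h3 := congrArg j hkl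
      rw [map_div₀, map_natCast, hx, hx] at h3
      have hz0 : z k ≠ 0 := by
        rw [← hx k, Ne, map_eq_zero]
        exact hx0 k
      rw [h3]
      field_simp
  have hρ0 : ρ ≠ 0 := by
    rintro rfl
    rw [norm_zero] at hρn
    norm_num at hρn
    have : (0 : ℝ) < (q : ℝ) ^ s := by positivity
    linarith
  -- the power of `ρ` as an element of `L`
  set R : L := (q : L) ^ (s * (m + 2) * N) / (∏ k, x k) ^ (s * N) with hR
  have hxp : (∏ k, x k) ≠ 0 := Finset.prod_ne_zero_iff.2 fun k _ => hx0 k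
  have hjR : j R = ρ ^ N := by
    have hzp : (∏ k, z k) ≠ 0 := Finset.prod_ne_zero_iff.2 fun k _ => by
      rw [← hx k, Ne, map_eq_zero]
      exact hx0 k
    rw [hR, map_div₀, map_pow, map_pow, map_prod, map_natCast, div_eq_iff (by
      rw [Finset.prod_congr rfl fun k _ => hx k]
      exact pow_ne_zero _ hzp), Finset.prod_congr rfl fun k _ => hx k]
    have h3 : ((∏ k, z k) ^ s * ρ) ^ N = ρ ^ N * (∏ k, z k) ^ (s * N) := by
      rw [mul_pow, ← pow_mul, mul_comm]
    rw [← h3, hrel, ← pow_mul, ← pow_mul]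
    congr 1
    ring
  have hR0 : R ≠ 0 := div_ne_zero (pow_ne_zero _ hqL) (pow_ne_zero _ hxp)
  have hRint : IsIntegral ℤ R := isIntegral_of_map j R (by rw [hjR]; exact hρ.pow N)
  have hRint' : IsIntegral ℤ ((((p : ℚ) ^ (a * (s * N)) : ℚ) : L) / R) := by
    apply isIntegral_of_map j
    rw [map_div₀, map_ratCast, hjR]
    have h1 : ((((p : ℚ) ^ (a * (s * N)) : ℚ)) : ℂ) / ρ ^ N = ((starRingEnd ℂ) ρ) ^ N := by
      have hcc : (starRingEnd ℂ) ρ * ρ = ((p : ℂ) ^ a) ^ s := by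
        rw [mul_comm, Complex.mul_conj, Complex.normSq_eq_norm_sq, hρn, hqp]
        push_cast
        rfl
      rw [div_eq_iff (pow_ne_zero _ hρ0), ← mul_pow, hcc]
      push_cast
      rw [← pow_mul, ← pow_mul]
    rw [h1]
    exact (hρ.map (Complex.conjAe.toAlgHom.restrictScalars ℤ)).pow N
  have hsN : (0 : ℝ) < (s : ℝ) * N := by positivity
  have hlogq : Real.log ‖(((p : ℚ) ^ a : ℚ) : PadicAlgCl p)‖ = - Real.log ((p : ℝ) ^ a) := by
    rw [norm_pow_cast, Real.log_inv]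
  have hB : ∀ σ : L ≃ₐ[ℚ] L, ∑ k, dv p a e (σ (x k)) ≤ Real.log ((p : ℝ) ^ a) := by
    intro σ
    have h1 := abs_dev_le p (a * (s * N)) (e (σ R)) (by
      rw [Ne, map_eq_zero, map_eq_zero]; exact hR0)
      ((hRint.map (σ.toAlgHom.restrictScalars ℤ)).map (e.restrictScalars ℤ)) (by
        have h4 := (hRint'.map (σ.toAlgHom.restrictScalars ℤ)).map (e.restrictScalars ℤ)
        have h5 : (e.restrictScalars ℤ) ((σ.toAlgHom.restrictScalars ℤ)
            ((((p : ℚ) ^ (a * (s * N)) : ℚ) : L) / R)) =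
            (((p : ℚ) ^ (a * (s * N)) : ℚ) : PadicAlgCl p) / e (σ R) := by
          change e (σ ((((p : ℚ) ^ (a * (s * N)) : ℚ) : L) / R)) = _
          rw [map_div₀, map_div₀, map_ratCast, map_ratCast]
        rw [h5] at h4
        exact h4)
    have h2 : Real.log ‖e (σ R)‖ = (s * (m + 2) * N : ℝ) * (- Real.log ((p : ℝ) ^ a)) -
        (s * N : ℝ) * ∑ k, Real.log ‖e (σ (x k))‖ := by
      have h3 : e (σ R) = (((p : ℚ) ^ a : ℚ) : PadicAlgCl p) ^ (s * (m + 2) * N) /
          (∏ k, e (σ (x k))) ^ (s * N) := by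
        rw [hR, map_div₀, map_div₀, map_pow, map_pow, map_pow, map_pow, map_prod, map_prod,
          map_natCast, map_natCast, hqp]
        push_cast
        rfl
      have hne : ∀ k, ‖e (σ (x k))‖ ≠ 0 := by
        intro k
        rw [norm_ne_zero_iff, Ne, map_eq_zero, map_eq_zero]
        exact hx0 k
      have hpne : ‖(((p : ℚ) ^ a : ℚ) : PadicAlgCl p)‖ ≠ 0 := by
        rw [norm_pow_cast]
        have : (0 : ℝ) < p := by exact_mod_cast hp0
        positivity
      rw [h3, norm_div, norm_pow, norm_pow, norm_prod, Real.log_div (pow_ne_zero _ hpne)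
        (pow_ne_zero _ (Finset.prod_ne_zero_iff.2 fun k _ => hne k)), Real.log_pow, Real.log_pow,
        Real.log_prod (fun k _ => hne k), hlogq]
      push_cast
      ring
    have h3 : ∑ k, dv p a e (σ (x k)) = 2 * ∑ k, Real.log ‖e (σ (x k))‖ +
        (2 * m + 3) * Real.log ((p : ℝ) ^ a) := by
      have h4 : ∀ k, dv p a e (σ (x k)) = 2 * Real.log ‖e (σ (x k))‖ + Real.log ((p : ℝ) ^ a) := by
        intro k
        unfold dv dev
        rw [hlogq]
        ring
      rw [Finset.sum_congr rfl fun k _ => h4 k, Finset.sum_add_distrib, ← Finset.mul_sum,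
        Finset.sum_const, Finset.card_univ, Fintype.card_fin, nsmul_eq_mul]
      push_cast
      ring
    have hpow : Real.log ((p : ℝ) ^ (a * (s * N))) = (s * N : ℝ) * Real.log ((p : ℝ) ^ a) := by
      rw [pow_mul, Real.log_pow]
      push_cast
      rfl
    have h4 : dev p ((p : ℚ) ^ (a * (s * N))) (e (σ R)) =
        - ((s * N : ℝ) * ∑ k, dv p a e (σ (x k))) := by
      unfold dev
      rw [norm_pow_cast, Real.log_inv, h2, h3, hpow]
      ring
    rw [h4, abs_neg, hpow] at h1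
    have h5 := (abs_le.1 h1).2
    exact le_of_mul_le_mul_left h5 hsN
  have key := free_sum hq hm j hL p a hqp e hirr hfl g r hg hdeg hr x i hxr hnoL _ hB
  have hl : 0 < Real.log ((p : ℝ) ^ a) :=
    Real.log_pos (one_lt_pow₀ (by exact_mod_cast (Fact.out : p.Prime).one_lt) ha.ne')
  have h6 : ∀ k, 1 / 3 * Real.log ((p : ℝ) ^ a) < (r (i k) : ℝ) / g (i k) * Real.log ((p : ℝ) ^ a) := by
    intro k
    have hg0 : (0 : ℝ) < g (i k) := by exact_mod_cast hg (i k)
    have h7 : (g (i k) : ℝ) < 3 * r (i k) := hrg (i k)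
    refine mul_lt_mul_of_pos_right ?_ hl
    rw [div_lt_div_iff₀ (by norm_num) hg0]
    linarith
  have h8 : ∑ _k : Fin (2 * m + 3), 1 / 3 * Real.log ((p : ℝ) ^ a) <
      ∑ k, (r (i k) : ℝ) / g (i k) * Real.log ((p : ℝ) ^ a) :=
    Finset.sum_lt_sum (fun k _ => (h6 k).le) ⟨⟨0, by omega⟩, Finset.mem_univ _, h6 _⟩
  rw [Finset.sum_const, Finset.card_univ, Fintype.card_fin, nsmul_eq_mul] at h8
  push_cast at h8
  have h9 : (0 : ℝ) ≤ (m : ℝ) * Real.log ((p : ℝ) ^ a) := by positivity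
  nlinarith

end Pool.Agent.Q219.NW
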