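import Mathlib
import Pool.Agent.Q219.NW.Direct
import Pool.Agent.Q219.NS.Defs

/-!
# The sum of the deviations of the slopes
-/

set_option autoImplicit false

namespace Pool.Agent.Q219.NW

open Polynomial Pool.Agent.H925R2 Pool.Agent.H485R3 Pool.Agent.W484.BB Pool.Agent.Q219.NS
  Pool.Agent.W484.AA

theorem hasDev_of_slopes (p : ℕ) [Fact p.Prime] (a : ℕ) {g : ℕ} (s : Fin g → ℚ) (P : ℤ[X])
    (h : WithSlopes p a s P) : HasDev p a (∑ j, (1 - 2 * (s j : ℝ))) P := by
  have hp0 : (0 : ℝ) < p := by exact_mod_cast (Fact.out : p.Prime).pos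
  let F : ℝ → ℝ := fun t => |2 * Real.log t + a * Real.log p|
  have hdev : ∀ y : PadicAlgCl p, |dev p ((p : ℚ) ^ a) y| =
      F (spectralNorm ℚ_[p] (AlgebraicClosure ℚ_[p]) y) := by
    intro y
    have h1 : spectralNorm ℚ_[p] (AlgebraicClosure ℚ_[p]) y = ‖y‖ := PadicAlgCl.spectralNorm_eq p y
    rw [h1]
    unfold dev
    rw [norm_pow_cast, Real.log_inv, Real.log_pow]
    simp only [F]
    congr 1
    ring
  have h2 : ((P.map (algebraMap ℤ (PadicAlgCl p))).roots.map
      (fun y => |dev p ((p : ℚ) ^ a) y|)).sum =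
      (((P.map (Int.castRingHom (AlgebraicClosure ℚ_[p]))).roots.map
        (fun x => spectralNorm ℚ_[p] (AlgebraicClosure ℚ_[p]) x)).map F).sum := by
    rw [Multiset.map_map]
    congr 1
    refine Multiset.map_congr ?_ fun y _ => hdev y
    rfl
  unfold HasDev
  rw [h2, h, Multiset.map_add, Multiset.sum_add, Multiset.map_map, Multiset.map_map]
  have h3 : ∀ x : ℝ, F ((p : ℝ) ^ (-x)) = |a - 2 * x| * Real.log p := by
    intro x
    have hl : 0 ≤ Real.log p := Real.log_nonneg (by exact_mod_cast (Fact.out : p.Prime).one_le)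
    simp only [F]
    rw [Real.log_rpow hp0, ← abs_of_nonneg hl, ← abs_mul, abs_of_nonneg hl]
    congr 1
    ring
  have h4 : (Finset.univ.val.map (F ∘ fun j : Fin g => (p : ℝ) ^ (-((a * s j : ℚ) : ℝ)))).sum =
      ∑ j, |a - 2 * ((a * s j : ℚ) : ℝ)| * Real.log p :=
    Finset.sum_congr rfl fun j _ => h3 _
  have h5 : (Finset.univ.val.map (F ∘ fun j : Fin g => (p : ℝ) ^ (-((a * (1 - s j) : ℚ) : ℝ)))).sum =
      ∑ j, |a - 2 * ((a * (1 - s j) : ℚ) : ℝ)| * Real.log p :=
    Finset.sum_congr rfl fun j _ => h3 _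
  rw [h4, h5, Real.log_pow, ← Finset.sum_add_distrib, Finset.mul_sum, Finset.sum_mul]
  refine Finset.sum_le_sum fun j _ => ?_
  have hl : 0 ≤ Real.log p := Real.log_nonneg (by exact_mod_cast (Fact.out : p.Prime).one_le)
  rw [← add_mul]
  have h6 : (a : ℝ) * (1 - 2 * s j) ≤ |a - 2 * ((a * s j : ℚ) : ℝ)| := by
    refine le_trans (le_of_eq ?_) (le_abs_self _)
    push_cast
    ring
  have h7 : (a : ℝ) * (1 - 2 * s j) ≤ |a - 2 * ((a * (1 - s j) : ℚ) : ℝ)| := by
    refine le_trans (le_of_eq ?_) (neg_le_abs _)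
    push_cast
    ring
  calc 2 * (1 - 2 * (s j : ℝ)) * (a * Real.log p) =
      (a * (1 - 2 * s j) + a * (1 - 2 * s j)) * Real.log p := by ring
    _ ≤ _ := mul_le_mul_of_nonneg_right (add_le_add h6 h7) hl

end Pool.Agent.Q219.NW
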