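import Mathlib
import Pool.Agent.Q219.NW.Defs
import Pool.Agent.Q219.NW.Rel
import Pool.Agent.Q219.NW.Slopes
import Pool.Agent.Q219.NS.Pair2

/-!
# Relations with numbers of small rank or small width
-/

set_option autoImplicit false

namespace Pool.Agent.Q219.NW

open Polynomial Module Pool.Agent.W484.AA Pool.Agent.W484.BB Pool.Agent.W521.Frob
  Pool.Agent.W484.HS Pool.Agent.W484.TB Pool.Agent.Q219.ST Pool.Agent.Q219.NS

/-- The roots. -/
abbrev RT {I : Type} (q : ℕ) (h : I → ℤ[X]) : Type := {z : ℂ // ∃ i, aeval z (weil q (h i)) = 0}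

/-- The list of roots as a function. -/
theorem list_prod_pow {I : Type} {q : ℕ} {h : I → ℤ[X]} (s : ℕ) {n : ℕ}
    (ys : List (RT q h)) (hlen : ys.length = n) :
    (∏ l : Fin n, ((ys.get (Fin.cast hlen.symm l) : RT q h) : ℂ)) ^ s =
      (ys.map fun z : RT q h => (z : ℂ) ^ s).prod := by
  have h6 : ∏ l : Fin n, ((ys.get (Fin.cast hlen.symm l) : RT q h) : ℂ) =
      (ys.map (fun y : RT q h => (y : ℂ))).prod := by
    have h61 : ∏ l : Fin n, ((ys.get (Fin.cast hlen.symm l) : RT q h) : ℂ) =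
        ∏ l : Fin ys.length, ((ys.get l : RT q h) : ℂ) :=
      Fintype.prod_equiv (finCongr hlen.symm) _ _ fun l => rfl
    rw [h61, ← List.prod_ofFn]
    congr 1
    apply List.ext_getElem
    · simp
    · intro i h1 h2
      simp
  rw [h6]
  clear h6 hlen
  induction ys with
  | nil => simp
  | cons y ys ih =>
    rw [List.map_cons, List.prod_cons, mul_pow, ih, List.map_cons, List.prod_cons]

theorem pairwise_ne {I : Type} {q s : ℕ} {h : I → ℤ[X]} {n : ℕ}
    (ys : List (RT q h)) (hlen : ys.length = n)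
    (hpw : ys.Pairwise (fun y y' : RT q h => (y : ℂ) ^ s * (y' : ℂ) ^ s ≠ (q : ℂ) ^ s))
    (k l : Fin n) (hkl : k ≠ l) :
    ((ys.get (Fin.cast hlen.symm k) : RT q h) : ℂ) *
      ((ys.get (Fin.cast hlen.symm l) : RT q h) : ℂ) ≠ q := by
  have hbad : ∀ k' l' : Fin ys.length, k' < l' →
      ((ys.get k' : RT q h) : ℂ) * ((ys.get l' : RT q h) : ℂ) ≠ q := by
    intro k' l' hkl h8
    refine (List.pairwise_iff_get.1 hpw) k' l' hkl ?_
    rw [← mul_pow, h8]
  rcases lt_or_gt_of_ne hkl with h | h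
  · exact hbad _ _ h
  · intro h8
    rw [mul_comm] at h8
    exact hbad _ _ h h8

/-- **Relations with a number of small width.** -/
theorem exactPair_narrow {I : Type} [Finite I] {q : ℕ} {U : Set ℕ} {h : I → ℤ[X]} (p : ℕ)
    [Fact p.Prime] (a : ℕ) (ha : 0 < a) (hqp : q = p ^ a) (hm : ∀ i, (h i).Monic)
    (hx : Pool.Agent.Q219.NS.Good U q h)
    (habs : ∀ i (z : ℂ), aeval z (weil q (h i)) = 0 → ‖z‖ ^ 2 = (q : ℝ))
    (hg : ∀ i, 0 < (h i).natDegree)
    (R : I → ℝ) (hR : ∀ i, HasDev p a (R i) (weil q (h i))) (P : ℝ) (hP : ∀ i, P ≤ R i)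
    (s : ℕ) (hs : 0 < s) (ρ : ℂ) (hρ : NarrowNumber q s P ρ) :
    ExactPairK (fun z : RT q h => (z : ℂ) ^ s) ((q : ℂ) ^ s) ρ := by
  classical
  obtain ⟨w, χ, hχm, hρχ, hχw, hχn⟩ := hρ
  obtain ⟨hpat, hirr, -⟩ := hx
  have hp : p.Prime := Fact.out
  have hq1 : 1 < q := by rw [hqp]; exact Nat.one_lt_pow ha.ne' hp.one_lt
  have hQ1 : (1 : ℝ) < (q : ℝ) ^ s := one_lt_pow₀ (by exact_mod_cast hq1) hs.ne'
  intro n c N hN hn ys hlen hrel hpw
  -- the weights
  have hprod : ‖(ys.map fun z : RT q h => (z : ℂ) ^ s).prod‖ ^ 2 = ((q : ℝ) ^ s) ^ n := by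
    rw [← hlen]
    clear hrel hpw hlen
    induction ys with
    | nil => simp
    | cons y ys ih =>
      obtain ⟨i, hi⟩ := y.2
      have h1 : ‖(y : ℂ) ^ s‖ ^ 2 = (q : ℝ) ^ s := by
        rw [norm_pow, ← pow_mul, mul_comm s 2, pow_mul, habs i _ hi]
      rw [List.map_cons, List.prod_cons, norm_mul, mul_pow, ih, List.length_cons, h1, pow_succ']
  have hnw : ((n + w : ℕ) : ℤ) = 2 * c := by
    have h1 := congrArg (fun z : ℂ => ‖z‖ ^ 2) hrel
    simp only [norm_pow, norm_mul, norm_zpow, Complex.norm_natCast] at h1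
    have h2 : (((q : ℝ) ^ s) ^ (((n + w : ℕ) : ℤ))) ^ N = (((q : ℝ) ^ s) ^ (2 * c)) ^ N := by
      rw [zpow_natCast, pow_add, ← hprod, ← hχw ρ hρχ, ← mul_pow, ← pow_mul, mul_comm 2 N, pow_mul,
        h1, ← pow_mul, mul_comm N 2, pow_mul, mul_comm 2 c, zpow_mul]
      norm_cast
    have h3 : ((q : ℝ) ^ s) ^ (((n + w : ℕ) : ℤ)) = ((q : ℝ) ^ s) ^ (2 * c) :=
      (pow_left_inj₀ (by positivity) (by positivity) hN.ne').1 h2
    exact (zpow_right_injective₀ (by positivity) hQ1.ne') h3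
  obtain ⟨c', hc'⟩ : ∃ c' : ℕ, c = c' := Int.eq_ofNat_of_zero_le (by omega)
  subst hc'
  have hpq : p ∣ q := by rw [hqp]; exact dvd_pow_self _ ha.ne'
  refine no_relation p a ha hqp hm hirr (fun i => ?_) (fun i => (h i).natDegree) R hg
    (fun i => weil_natDegree q (hm i)) hR P hP s hs w χ hχm hχw (hχn p hpq) ρ hρχ hn c'
    (by exact_mod_cast hnw) N hN (fun l => ((ys.get (Fin.cast hlen.symm l) : RT q h) : ℂ))
    (fun l => (ys.get (Fin.cast hlen.symm l)).2) ?_ (pairwise_ne ys hlen hpw)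
  · obtain ⟨l, h1, h2, h3, -, h4⟩ := hpat i
    exact ⟨l, h1, h2, h3, h4⟩
  · rw [list_prod_pow s ys hlen]
    rw [zpow_natCast] at hrel
    exact hrel

/-- There are no relations between the roots of the `f i`, numbers with the property `R` and powers
of `q`, except the obvious ones (over the field with `q ^ s` elements). -/
structure NoRelAt {I : Type} (f : I → ℤ[X]) (q s : ℕ) (R : ℂ → Prop) : Prop where
  monic : ∀ i, (f i).Monic
  one : R 1
  pair : ∀ ρ : ℂ, R ρ →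
    ExactPairK (fun z : {z : ℂ // ∃ i, aeval z (f i) = 0} => (z : ℂ) ^ s) ((q : ℂ) ^ s) ρ

theorem noRelAt_good {I : Type} [Finite I] (E : IntermediateField ℚ ℂ) [FiniteDimensional ℚ E]
    {q : ℕ} {h : I → ℤ[X]} (p : ℕ) [Fact p.Prime] (a : ℕ) (ha : 0 < a) (hqp : q = p ^ a) (r : ℕ)
    (hm : ∀ i, (h i).Monic) (hr : ∀ i, r < (h i).natDegree)
    (hx : Pool.Agent.Q219.NS.Good (splitPrimes E) q h)
    (habs : ∀ i (z : ℂ), aeval z (weil q (h i)) = 0 → ‖z‖ ^ 2 = (q : ℝ))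
    (R : I → ℝ) (hR : ∀ i, HasDev p a (R i) (weil q (h i))) (P : ℝ) (hP : ∀ i, P ≤ R i)
    (s : ℕ) (hs : 0 < s) : NoRelAt (fun i => weil q (h i)) q s (Allowed E r q s P) where
  monic i := weil_monic q (hm i)
  one := Or.inl (by
    have hX1 : (Polynomial.X - 1 : ℚ[X]) ≠ 0 := by
      have := Polynomial.X_sub_C_ne_zero (1 : ℚ)
      rwa [map_one] at this
    refine ⟨Polynomial.X - 1, hX1, by simp, fun _ => 1, fun _ => one_ne_zero, ?_⟩
    intro ρ hρ
    have h1 : ρ = 1 := by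
      have h2 : aeval ρ (Polynomial.X - 1 : ℚ[X]) = 0 := hρ
      rwa [map_sub, aeval_X, map_one, sub_eq_zero] at h2
    exact ⟨1, 1, 0, Nat.one_pos, one_mem E, one_ne_zero, by simp [h1]⟩)
  pair ρ hρ := by
    rcases hρ with hρ | hρ
    · obtain ⟨χ, hχ, hρχ, hrank⟩ := hρ
      exact exactPair_good E (by rw [hqp]; exact pow_ne_zero _ (Fact.out : p.Prime).ne_zero) r h hm
        hr hx s hs χ hχ hrank ρ hρχ
    · exact exactPair_narrow p a ha hqp hm hx habs (fun i => (Nat.zero_le r).trans_lt (hr i)) R hR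
        P hP s hs ρ hρ

end Pool.Agent.Q219.NW
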