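import Mathlib
import Pool.Agent.Q219.NS.Main
import Pool.Agent.Q219.NW.Pair

/-!
# The count, with the information on the slopes
-/

set_option autoImplicit false

namespace Pool.Agent.Q219.NW

open Polynomial Module Pool.Agent.W521.Frob Pool.Agent.W484.TB Pool.Agent.W518.DN
  Pool.Agent.Q219.NS

variable {κ : Type} [Fintype κ] [Nonempty κ] (g : κ → ℕ) (s : ∀ i, Fin (g i) → ℚ) (p : ℕ)
  [hp : Fact p.Prime]

/-- **The count**, for properties which follow from the absence of relations and the slopes. -/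
theorem count_slopes (E : IntermediateField ℚ ℂ) [FiniteDimensional ℚ E] (hg : ∀ i, 1 ≤ g i)
    (hs : ∀ i, IsPolygon (s i)) (σ : ℚ) (hσ : ∀ i (h : 0 < g i), s i ⟨0, h⟩ ≤ σ)
    (hσ2 : σ < 1 / 2) :
    (∀ N : ℕ, ∃ a₀ : ℕ, ∀ a, a₀ ≤ a →
      (NewtonStratum g s p a).Finite ∧ N ≤ (NewtonStratum g s p a).ncard) ∧
    ∃ C : ℝ, 0 < C ∧ ∀ a : ℕ, 0 < a → ∀ Q : (κ → ℤ[X]) → Prop,
      (∀ h : κ → ℤ[X], (∀ i, (h i).Monic) → (∀ i, (h i).natDegree = g i) →
        Pool.Agent.Q219.NS.Good (splitPrimes E) (p ^ a) h →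
        (∀ i (z : ℂ), aeval z (weil (p ^ a) (h i)) = 0 → ‖z‖ ^ 2 = ((p ^ a : ℕ) : ℝ)) →
        (∀ i, HasDev p a (devSum (s i)) (weil (p ^ a) (h i))) →
        Q fun i => weil (p ^ a) (h i)) →
      ({P ∈ NewtonStratum g s p a | ¬ Q P}.ncard : ℝ) ≤
        C * (a * (p : ℝ) ^ (-((a : ℝ) * (1 - 2 * σ) / 6))) *
          ((NewtonStratum g s p a).ncard : ℝ) := by
  classical
  have hs' : ∀ i, IsNewton (s i) := fun i => ⟨(hs i).mono, (hs i).nonneg, (hs i).le_half,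
    (hs i).integral⟩
  have heq : ∀ a, NewtonStratum g s p a = Stratum g s p a := fun _ => rfl
  refine ⟨fun N => ?_, ?_⟩
  · obtain ⟨a₀, h⟩ := density g s p hg hs' (fun i => ⟨⟨0, hg i⟩, (hσ i (hg i)).trans_lt hσ2⟩)
      N 1 one_pos
    exact ⟨a₀, fun a ha => ⟨(h a ha).1, (h a ha).2.1⟩⟩
  · obtain ⟨C, hC, h⟩ := count_strata g s p (splitPrimes E) (dense_splitPrimes E) hg hs' σ hσ hσ2
    refine ⟨C, hC, fun a ha Q hQ => ?_⟩
    have h1 := h a ha (fun P => (∀ i (z : ℂ), aeval z (P i) = 0 → ‖z‖ ^ 2 = ((p ^ a : ℕ) : ℝ)) →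
      (∀ i, HasDev p a (devSum (s i)) (P i)) → Q P) (fun f hm hd hf h1 h2 => hQ f hm hd hf h1 h2)
    rw [← heq] at h1
    refine le_trans (le_of_eq ?_) h1
    congr 2
    ext P
    constructor
    · rintro ⟨hP, hnQ⟩
      refine ⟨hP, fun h3 => hnQ (h3 (fun i z hz => ?_) fun i => ?_)⟩
      · have h4 := (hP i).1.weil z (by
          rw [IsRoot.def, eval_map]
          exact hz)
        rw [h4]
        push_cast
        rfl
      · exact hasDev_of_slopes p a (s i) (P i) (hP i).2.2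
    · rintro ⟨hP, hnQ⟩
      exact ⟨hP, fun h3 => hnQ fun _ _ => h3⟩

end Pool.Agent.Q219.NW
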